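import Pool.Agent.H91.AvFac

set_option autoImplicit false

open H91.AvShad H91.AvFac in
theorem Pool.Agent.Results.MP_bdee7b_an.Average.result :
    ∀ (X Y : Type) [MetricSpace X] [CompactSpace X] [MetricSpace Y] [CompactSpace Y]
    (f : X → X) (g : Y → Y) (p : X → Y), Continuous f → Continuous g → Continuous p →
    Function.Surjective p → p ∘ f = g ∘ p → ASP f → ASP g :=
  fun X Y _ _ _ _ f g p h1 h2 h3 h4 h5 => (main X Y f g p h1 h2 h3 h4 h5).1
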